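import Pool.Agent.LipSmooth.Final

/-!
# `k`-times Fréchet smooth renormability is not a Lipschitz invariant
-/

namespace Pool.Agent.Results.MP_19024a_an.NotLipInvariant

open Pool.Agent.LipSmooth

/-- There are real Banach spaces `X`, `Y` and a bijection `e : X → Y` with `e` and `e⁻¹` Lipschitz
such that `X` has an equivalent norm which is `C^k` on `X \ {0}` for every `k`, while no
equivalent norm on `Y` is Fréchet differentiable at all points of `Y \ {0}`. -/
theorem result :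
    ∃ (X Y : Type) (_ : NormedAddCommGroup X) (_ : NormedSpace ℝ X) (_ : CompleteSpace X)
      (_ : NormedAddCommGroup Y) (_ : NormedSpace ℝ Y) (_ : CompleteSpace Y),
      (∃ e : X ≃ Y, (∃ C, LipschitzWith C e) ∧ (∃ C, LipschitzWith C e.symm)) ∧
      (∃ N : X → ℝ, IsEquivNorm N ∧ ∀ (k : ℕ) (x : X), x ≠ 0 → ContDiffAt ℝ k N x) ∧
      ¬ ∃ N : Y → ℝ, IsEquivNorm N ∧ ∀ y : Y, y ≠ 0 → DifferentiableAt ℝ N y := by
  refine ⟨X0, Y0 × Z0, inferInstance, inferInstance, inferInstance, inferInstance, inferInstance,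
    inferInstance, ⟨homeo, ⟨3, homeo_lip⟩, ⟨3, homeo_symm_lip⟩⟩, ?_, ?_⟩
  · obtain ⟨N, hN, hs⟩ := X0_smooth
    refine ⟨N, hN, fun k x hx => (hs x hx).of_le ?_⟩
    exact_mod_cast le_top
  · rintro ⟨N, hN, hd⟩
    exact prod_not_smooth Y0rep N hN hd

end Pool.Agent.Results.MP_19024a_an.NotLipInvariant
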